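import Mathlib

/-!
# The wheels `W_7`, `W_8`, `W_9` are geodesic Leech graphs

It was asked whether for every `n ≥ 7` the wheel `W_n` (a cycle on `n - 1` vertices together with a
hub joined to all of them) is not a geodesic Leech graph.  Explicit labelings, found by computer
search, show that `W_7`, `W_8` and `W_9` are geodesic Leech graphs: for instance the `27` geodesic
paths of `W_7` get the weights `1, …, 27`.
-/

namespace Pool.Agent.Results.MP_071a69_co.Wheels

/-- The wheel on `n` vertices: the rim is the cycle on `Fin (n - 1)`, and the hub `none` is joined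
to every rim vertex. -/
def wheel (n : ℕ) : SimpleGraph (Option (Fin (n - 1))) where
  Adj x y :=
    match x, y with
    | none, none => False
    | none, some _ => True
    | some _, none => True
    | some i, some j => (SimpleGraph.cycleGraph (n - 1)).Adj i j
  symm := ⟨by
    intro x y h
    rcases x with _ | i <;> rcases y with _ | j <;> simp_all
    exact h.symm⟩
  loopless := ⟨by
    intro x h
    rcases x with _ | i <;> simp_all⟩

/-- The geodesic paths of `G`: a path with at least one edge, of length equal to the distance of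
its endpoints.  A path is recorded by its set of edges, so that it counts once together with its
reverse, while different shortest paths between the same vertices stay different. -/
def geodesicPaths {V : Type} [DecidableEq V] (G : SimpleGraph V) : Set (Finset (Sym2 V)) :=
  {E | ∃ (u v : V) (p : G.Walk u v),
    p.IsPath ∧ 1 ≤ p.length ∧ p.length = G.dist u v ∧ p.edges.toFinset = E}

/-- `f` (restricted to the edges of `G`) is a geodesic Leech labeling of `G`: the labels of the
edges are positive, and the set of weights of the geodesic paths is `{1, …, t}`, where `t` is the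
number of geodesic paths. -/
def IsGeodesicLeech {V : Type} [DecidableEq V] (G : SimpleGraph V) (f : Sym2 V → ℕ) : Prop :=
  (∀ e ∈ G.edgeSet, 1 ≤ f e) ∧
  (fun E : Finset (Sym2 V) => ∑ e ∈ E, f e) '' geodesicPaths G =
    Set.Icc 1 (geodesicPaths G).ncard

instance wheelDec (n : ℕ) : DecidableRel (wheel n).Adj := fun x y =>
  match x, y with
  | none, none => .isFalse (fun h => h)
  | none, some _ => .isTrue trivial
  | some _, none => .isTrue trivial
  | some i, some j => inferInstanceAs (Decidable ((SimpleGraph.cycleGraph (n - 1)).Adj i j))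

/-- All pairs of adjacent vertices. -/
def P1 (n : ℕ) : Finset (Option (Fin (n - 1)) × Option (Fin (n - 1))) :=
  Finset.univ.filter (fun x => (wheel n).Adj x.1 x.2)

/-- All induced paths with two edges. -/
def P2 (n : ℕ) :
    Finset (Option (Fin (n - 1)) × Option (Fin (n - 1)) × Option (Fin (n - 1))) :=
  Finset.univ.filter (fun x => (wheel n).Adj x.1 x.2.1 ∧ (wheel n).Adj x.2.1 x.2.2 ∧
    x.1 ≠ x.2.2 ∧ ¬ (wheel n).Adj x.1 x.2.2)

/-- The edge sets of the geodesic paths of `W_n`. -/
def paths (n : ℕ) : Finset (Finset (Sym2 (Option (Fin (n - 1))))) :=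
  (P1 n).image (fun x => {s(x.1, x.2)}) ∪
    (P2 n).image (fun x => {s(x.1, x.2.1), s(x.2.1, x.2.2)})

lemma common (n : ℕ) (u v : Option (Fin (n - 1))) :
    u = v ∨ (wheel n).Adj u v ∨ ∃ w, (wheel n).Adj u w ∧ (wheel n).Adj w v := by
  rcases u with _ | i <;> rcases v with _ | j
  · exact Or.inl rfl
  · exact Or.inr (Or.inl trivial)
  · exact Or.inr (Or.inl trivial)
  · exact Or.inr (Or.inr ⟨none, trivial, trivial⟩)

lemma dist_le_two (n : ℕ) (u v : Option (Fin (n - 1))) : (wheel n).dist u v ≤ 2 := by
  rcases common n u v with h | h | ⟨w, h1, h2⟩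
  · subst h; simp
  · have := SimpleGraph.dist_le (SimpleGraph.Walk.cons h SimpleGraph.Walk.nil)
    simp at this
    omega
  · have := SimpleGraph.dist_le
      (SimpleGraph.Walk.cons h1 (SimpleGraph.Walk.cons h2 SimpleGraph.Walk.nil))
    simpa using this

lemma dist_two {n : ℕ} {u w v : Option (Fin (n - 1))} (h1 : (wheel n).Adj u w)
    (h2 : (wheel n).Adj w v) (hne : u ≠ v) (hna : ¬ (wheel n).Adj u v) :
    (wheel n).dist u v = 2 := by
  have h := dist_le_two n u v
  have h0 : (wheel n).dist u v ≠ 0 := by
    intro h0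
    rcases SimpleGraph.dist_eq_zero_iff_eq_or_not_reachable.1 h0 with h | h
    · exact hne h
    · exact h ⟨SimpleGraph.Walk.cons h1 (SimpleGraph.Walk.cons h2 SimpleGraph.Walk.nil)⟩
  have h1' : (wheel n).dist u v ≠ 1 := by
    intro h1'
    exact hna (SimpleGraph.dist_eq_one_iff_adj.1 h1')
  omega

lemma paths_eq (n : ℕ) : geodesicPaths (wheel n) = ↑(paths n) := by
  ext E
  constructor
  · rintro ⟨u, v, p, hp, hl, hd, rfl⟩
    have h2 := dist_le_two n u v
    rw [← hd] at h2
    match p, hp, hl, hd, h2 with
    | .nil, _, hl, _, _ => simp at hl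
    | .cons h .nil, _, _, _, _ =>
      simp only [paths, P1, Finset.coe_union, Set.mem_union, Finset.mem_coe, Finset.mem_image,
        Finset.mem_filter, Finset.mem_univ, true_and, Prod.exists]
      left
      exact ⟨u, v, h, by simp⟩
    | .cons (v := w) h (.cons h' .nil), hp, _, hd, _ =>
      simp only [paths, P2, Finset.coe_union, Set.mem_union, Finset.mem_coe, Finset.mem_image,
        Finset.mem_filter, Finset.mem_univ, true_and, Prod.exists]
      right
      refine ⟨u, w, v, ⟨h, h', ?_, ?_⟩, by simp⟩
      · rintro rfl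
        simp at hd
      · intro hadj
        have := SimpleGraph.dist_eq_one_iff_adj.2 hadj
        rw [this] at hd
        simp at hd
    | .cons h (.cons h' (.cons h'' q)), _, _, _, h2 =>
      simp at h2
  · intro hE
    simp only [paths, P1, P2, Finset.coe_union, Set.mem_union, Finset.mem_coe, Finset.mem_image,
      Finset.mem_filter, Finset.mem_univ, true_and, Prod.exists] at hE
    rcases hE with ⟨u, v, h, rfl⟩ | ⟨u, w, v, ⟨h1, h2, hne, hna⟩, rfl⟩
    · refine ⟨u, v, SimpleGraph.Walk.cons h SimpleGraph.Walk.nil, ?_, by simp, ?_, by simp⟩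
      · simp [h.ne]
      · rw [SimpleGraph.dist_eq_one_iff_adj.2 h]; simp
    · refine ⟨u, v, SimpleGraph.Walk.cons h1 (SimpleGraph.Walk.cons h2 SimpleGraph.Walk.nil),
        ?_, by simp, ?_, by simp⟩
      · simp [h1.ne, h2.ne, hne]
      · rw [dist_two h1 h2 hne hna]; simp

/-- The labels given by labels of the spokes and of the rim edges. -/
def lab (n : ℕ) (sp ri : Fin (n - 1) → ℕ) : Option (Fin (n - 1)) → Option (Fin (n - 1)) → ℕ
  | none, none => 0
  | none, some i => sp i
  | some i, none => sp i
  | some i, some j =>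
    if (i.val + 1) % (n - 1) = j.val then ri i
    else if (j.val + 1) % (n - 1) = i.val then ri j else 0

lemma leech_of_check (n : ℕ) (l : Option (Fin (n - 1)) → Option (Fin (n - 1)) → ℕ) (t : ℕ)
    (hs : ∀ x y, l x y = l y x) (hpos : ∀ x y, (wheel n).Adj x y → 1 ≤ l x y)
    (hc : (paths n).card = t)
    (hw : (paths n).image (fun E => ∑ e ∈ E, Sym2.lift ⟨l, hs⟩ e) = Finset.Icc 1 t) :
    ∃ f : Sym2 (Option (Fin (n - 1))) → ℕ, IsGeodesicLeech (wheel n) f := by
  refine ⟨Sym2.lift ⟨l, hs⟩, ?_, ?_⟩
  · intro e
    induction e using Sym2.ind with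
    | _ x y =>
      intro he
      exact hpos x y ((wheel n).mem_edgeSet.1 he)
  · rw [paths_eq n, Set.ncard_coe_finset, hc]
    have h2 := congrArg (fun s : Finset ℕ => (s : Set ℕ)) hw
    simpa using h2

/-- Labels of the spokes of `W_7`. -/
def spoke7 (i : Fin 6) : ℕ := ![1, 3, 10, 21, 17, 5] i

/-- Labels of the rim edges of `W_7`; the edge `i` joins the rim vertices `i` and `i + 1`. -/
def rim7 (i : Fin 6) : ℕ := ![2, 4, 9, 16, 7, 12] i

lemma leech7 : ∃ f : Sym2 (Option (Fin (7 - 1))) → ℕ, IsGeodesicLeech (wheel 7) f :=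
  leech_of_check 7 (lab 7 spoke7 rim7) 27 (by decide +kernel) (by decide +kernel)
    (by decide +kernel) (by decide +kernel)

/-- Labels of the spokes of `W_8`. -/
def spoke8 (i : Fin 7) : ℕ := ![1, 3, 11, 24, 19, 4, 10] i

/-- Labels of the rim edges of `W_8`; the edge `i` joins the rim vertices `i` and `i + 1`. -/
def rim8 (i : Fin 7) : ℕ := ![2, 6, 26, 9, 14, 17, 16] i

lemma leech8 : ∃ f : Sym2 (Option (Fin (8 - 1))) → ℕ, IsGeodesicLeech (wheel 8) f :=
  leech_of_check 8 (lab 8 spoke8 rim8) 35 (by decide +kernel) (by decide +kernel)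
    (by decide +kernel) (by decide +kernel)

/-- Labels of the spokes of `W_9`. -/
def spoke9 (i : Fin 8) : ℕ := ![1, 3, 8, 11, 28, 32, 16, 10] i

/-- Labels of the rim edges of `W_9`; the edge `i` joins the rim vertices `i` and `i + 1`. -/
def rim9 (i : Fin 8) : ℕ := ![2, 4, 22, 15, 5, 34, 7, 23] i

lemma leech9 : ∃ f : Sym2 (Option (Fin (9 - 1))) → ℕ, IsGeodesicLeech (wheel 9) f :=
  leech_of_check 9 (lab 9 spoke9 rim9) 44 (by decide +kernel) (by decide +kernel)
    (by decide +kernel) (by decide +kernel)

/-- The wheels `W_7`, `W_8`, `W_9` are geodesic Leech graphs; in particular it is not true that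
for every `n ≥ 7` the wheel `W_n` is not a geodesic Leech graph. -/
theorem result :
    (∀ n : ℕ, n = 7 ∨ n = 8 ∨ n = 9 →
      ∃ f : Sym2 (Option (Fin (n - 1))) → ℕ, IsGeodesicLeech (wheel n) f) ∧
    ¬ ∀ n : ℕ, 7 ≤ n →
      ¬ ∃ f : Sym2 (Option (Fin (n - 1))) → ℕ, IsGeodesicLeech (wheel n) f := by
  refine ⟨?_, fun h => h 7 le_rfl leech7⟩
  rintro n (rfl | rfl | rfl)
  · exact leech7
  · exact leech8
  · exact leech9

end Pool.Agent.Results.MP_071a69_co.Wheels
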